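import Pool.Agent.helper16.CVL.SpecE

/-! MP_70a088 row cv:HCO: `cr` and `hdf` are continuous. -/

set_option autoImplicit false

open Complex Metric Set Filter Topology MeasureTheory
open HY (UD T S hd UN RM)
open RT (UC TD rm lf cr pd bl gr hdf Lf UP)
open PL (DK ht tr SUBH INR)

noncomputable section

namespace CVL

theorem HCO_cr (hTDF : RT.TDF_stmt) {s : ℝ} {W : Set ℂ} (hW : TD s W) {z₀ : ℂ} (hz₀ : z₀ ∈ W) :
    ContinuousAt (cr W) z₀ := by
  obtain ⟨hUC, -, -, -, -, -, hx⟩ := hTDF s W hW z₀ hz₀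
  have h0 : (0 : ℂ) ∈ UD := by
    rw [show (UD : Set ℂ) = ball 0 1 from rfl]
    exact mem_ball_self one_pos
  have hop : IsOpen (UD : Set ℂ) := by
    rw [show (UD : Set ℂ) = ball 0 1 from rfl]
    exact isOpen_ball
  have han : AnalyticAt ℂ (rm W z₀) 0 := hUC.dif.analyticAt (hop.mem_nhds h0)
  have hmap := han.hasStrictDerivAt.map_nhds_eq (hUC.der 0 h0)
  rw [hUC.val] at hmap
  have hc : ContinuousAt (fun x : ℂ => ‖deriv (rm W z₀) x‖ * (1 - ‖x‖ ^ 2)) 0 :=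
    han.deriv.continuousAt.norm.mul (continuousAt_const.sub (continuousAt_id.norm.pow 2))
  have hev : ∀ᶠ x in 𝓝 (0 : ℂ), ‖deriv (rm W z₀) x‖ * (1 - ‖x‖ ^ 2) = (cr W ∘ rm W z₀) x := by
    filter_upwards [hop.mem_nhds h0] with x hxU
    exact (hx x hxU).2.2.2.symm
  have h1 : Tendsto (cr W ∘ rm W z₀) (𝓝 0) (𝓝 (cr W z₀)) := by
    have h2 : ‖deriv (rm W z₀) 0‖ * (1 - ‖(0 : ℂ)‖ ^ 2) = cr W z₀ := by
      rw [← (hx 0 h0).2.2.2, hUC.val]
    rw [← h2]
    exact Tendsto.congr' hev hc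
  unfold ContinuousAt
  rw [← hmap]
  exact tendsto_map'_iff.2 h1

theorem HCO (hTDF : RT.TDF_stmt) : HCO_stmt := by
  intro s W W' g hW hW' hg hmap
  have hcr : ∀ z ∈ W, ContinuousAt (cr W) z := fun z hz => HCO_cr hTDF hW hz
  refine ⟨fun z hz => (hcr z hz).continuousWithinAt, fun z hz => ContinuousAt.continuousWithinAt ?_⟩
  have han : AnalyticAt ℂ g z := hg.analyticAt (hW.op.mem_nhds hz)
  have h1 : ContinuousAt (fun w => ‖deriv g w‖ * cr W w / cr W' (g w)) z :=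
    (han.deriv.continuousAt.norm.mul (hcr z hz)).div
      ((HCO_cr hTDF hW' (hmap hz)).comp_of_eq han.continuousAt rfl) ((hTDF s W' hW' _ (hmap hz)).2.1).ne'
  exact h1

end CVL

end
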